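import Pool.Agent.W516.MTH.Defs

/-!
# Statements of the parts of project MTH
-/

set_option autoImplicit false

namespace Pool.Agent.W516.MTH

open Matrix Pool.Agent.W516.MTZ

/-- MTH-ALG. -/
def StAlg : Prop :=
  ∀ (m : Type) [Fintype m] [DecidableEq m] (L : Submodule ℂ (Matrix m m ℂ)),
    (1 : Matrix m m ℂ) ∈ L → (∀ A ∈ L, ∀ B ∈ L, A * B ∈ L) →
    ∀ u : (Matrix m m ℂ)ˣ, (u : Matrix m m ℂ) ∈ L → ((u⁻¹ : (Matrix m m ℂ)ˣ) : Matrix m m ℂ) ∈ L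

/-- MTH-DIM. -/
def StDim : Prop :=
  ∀ (I V W : Type) [Fintype I] [AddCommGroup V] [Module ℚ V] [AddCommGroup W] [Module ℚ W]
    (P : I → Prop) (v : I → V) (w : I → W),
    (∀ c : I → ℚ, (∀ k, c k ≠ 0 → P k) → ∑ k, c k • w k = 0 → ∑ k, c k • v k = 0) →
    (Module.finrank ℚ (Submodule.span ℚ {z : V | ∃ k, P k ∧ z = v k}) =
        Module.finrank ℚ (Submodule.span ℚ {z : W | ∃ k, P k ∧ z = w k}) ↔
      ∀ c : I → ℚ, (∀ k, c k ≠ 0 → P k) → ∑ k, c k • v k = 0 → ∑ k, c k • w k = 0)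

/-- MTH-SPAN. -/
def StSpan : Prop :=
  ∀ (m : Type) [Fintype m] [DecidableEq m] (wt : m → ℕ) (G : Set (Matrix m m ℂ)),
    (∀ (σ : ℂ ≃+* ℂ), ∀ g ∈ G, g.map σ ∈ G) →
    (∀ μ : ℂ, μ ≠ 0 → ∀ g ∈ G, g * diagonal (fun i => μ ^ wt i) ∈ G) →
    ∀ B : Matrix m m ℂ,
      (∀ (n : ℕ) (c : m → m → ℚ), (∀ i j, c i j ≠ 0 → wt j = n) →
        (∀ g ∈ G, ∑ i, ∑ j, (c i j : ℂ) * g i j = 0) → ∑ i, ∑ j, (c i j : ℂ) * B i j = 0) →
      B ∈ Submodule.span ℂ G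

/-- MTH-ZETA. -/
def StHZeta : Prop :=
  ∀ (m X : Type) [Fintype m] [DecidableEq m] [Fintype X] [DecidableEq X] (M : Motive m X)
    (p : Matrix m m ℂ), (∀ x, Odd (M.deg x) ∧ 3 ≤ M.deg x) → Function.Injective M.deg →
    p M.t M.t = 2 * Real.pi * Complex.I → (∀ x, p M.o (M.s x) = riemannZeta (M.deg x)) →
    HIndependent M p

end Pool.Agent.W516.MTH
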