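import Pool.Agent.W516.MTH.Main
import Pool.Agent.W715.MTH.ALG
import Pool.Agent.W768.MTH.DIM
import Pool.Agent.W351.MTH.SPAN
import Pool.Agent.W177.MTH.ZETA

/-!
# The dimension conjecture and the single-valued periods
-/

set_option autoImplicit false
set_option linter.unusedSectionVars false

namespace Pool.Agent.W516.MTH

open Matrix Pool.Agent.W516.MTZ

variable {m X : Type} [Fintype m] [DecidableEq m] [Fintype X] [DecidableEq X]

/-- Complex conjugation. -/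
noncomputable def cj : ℂ ≃+* ℂ := (Complex.conjAe : ℂ ≃ₐ[ℝ] ℂ).toRingEquiv

theorem cj_apply (z : ℂ) : cj z = starRingEnd ℂ z := rfl

/-- The subgroup of the elements whose right multiplication preserves a space of matrices. -/
def Stab (M : Motive m X) (L : Submodule ℂ (Matrix m m ℂ)) : Subgroup (Matrix m m ℂ)ˣ where
  carrier := {g | g ∈ M.gp ∧ ∀ B ∈ L, B * (g : Matrix m m ℂ) ∈ L}
  one_mem' := ⟨Subgroup.one_mem _, fun B hB => by rwa [Units.val_one, mul_one]⟩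
  mul_mem' := by
    rintro a b ⟨ha, ha'⟩ ⟨hb, hb'⟩
    refine ⟨Subgroup.mul_mem _ ha hb, fun B hB => ?_⟩
    rw [Units.val_mul, ← mul_assoc]
    exact hb' _ (ha' _ hB)
  inv_mem' := by
    rintro a ⟨ha, ha'⟩
    refine ⟨Subgroup.inv_mem _ ha, fun B hB => ?_⟩
    let f : L →ₗ[ℂ] L :=
      { toFun := fun A => ⟨(A : Matrix m m ℂ) * (a : Matrix m m ℂ), ha' _ A.2⟩
        map_add' := fun A A' => Subtype.ext (by simp [add_mul])
        map_smul' := fun e A => Subtype.ext (by simp) }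
    have hinj : Function.Injective f := by
      intro A A' h
      have h1 := congrArg (fun C : L => (C : Matrix m m ℂ)) h
      have h2 : (A : Matrix m m ℂ) * (a : Matrix m m ℂ) =
        (A' : Matrix m m ℂ) * (a : Matrix m m ℂ) := h1
      exact Subtype.ext ((Units.mul_left_inj a).1 h2)
    obtain ⟨A, hA⟩ := (LinearMap.injective_iff_surjective.1 hinj) ⟨B, hB⟩
    have h2 : (A : Matrix m m ℂ) * (a : Matrix m m ℂ) = B :=
      congrArg (fun C : L => (C : Matrix m m ℂ)) hA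
    rw [← h2, mul_assoc, Units.mul_inv, mul_one]
    exact A.2

theorem dg_mem_Stab (M : Motive m X) (p : Matrix m m ℂ) (μ : ℂˣ) :
    dg M μ ∈ Stab M (Sat M p) := by
  refine ⟨dg_mem M μ, fun B hB n c hc hc0 => ?_⟩
  have h2 := hB n c hc hc0
  have h3 : ∀ i j, (c i j : ℂ) * (B * (dg M μ : Matrix m m ℂ)) i j =
      (μ : ℂ) ^ n * ((c i j : ℂ) * B i j) := by
    intro i j
    rw [dg_val, mul_diagonal]
    by_cases h4 : c i j = 0
    · rw [h4]
      simp
    · rw [hc i j h4]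
      ring
  simp only [h3, ← Finset.mul_sum]
  rw [h2, mul_zero]

/-- A homogeneous subgroup which contains `p⁻¹ σ(p)` is everything if the degrees are distinct and
no `z_x / λ ^ deg x` is fixed by `σ`. -/
theorem gp_le_conj {M : Motive m X} {H : Subgroup (Matrix m m ℂ)ˣ} (hH : H ≤ M.gp)
    (hdg : ∀ μ : ℂˣ, dg M μ ∈ H) {p : (Matrix m m ℂ)ˣ} (hp : p ∈ M.gp) (σ : ℂ ≃+* ℂ)
    (hs : p⁻¹ * sg σ p ∈ H) (hinj : Function.Injective M.deg)
    (hz : ∀ x, σ ((p : Matrix m m ℂ) M.o (M.s x)) -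
      (σ ((p : Matrix m m ℂ) M.t M.t) / (p : Matrix m m ℂ) M.t M.t) ^ M.deg x *
        (p : Matrix m m ℂ) M.o (M.s x) ≠ 0) : M.gp ≤ H := by
  refine gp_le hH (img_top_h hH hdg) ?_
  have hstab : ∀ μ : ℂ, μ ≠ 0 → ∀ v ∈ Vec M H hH, (fun x => μ ^ M.deg x * v x) ∈ Vec M H hH := by
    rintro μ hμ v ⟨h, hh, hh1, hh2⟩
    have hk := hdg (Units.mk0 μ hμ)
    have hk1 := dg_tt M (Units.mk0 μ hμ)
    have hk0 := fun x => dg_os M (Units.mk0 μ hμ) x
    generalize dg M (Units.mk0 μ hμ) = k at hk hk1 hk0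
    rw [Units.val_mk0] at hk1
    have hkh : h * k ∈ M.gp := Subgroup.mul_mem _ (hH hh) (hH hk)
    have hki : k⁻¹ ∈ M.gp := Subgroup.inv_mem _ (hH hk)
    refine ⟨k⁻¹ * (h * k), H.mul_mem (H.inv_mem hk) (H.mul_mem hh hk), ?_, fun x => ?_⟩
    · rw [mul_tt hki hkh, mul_tt (hH hh) (hH hk), tt_inv (hH hk), hh1, hk1, one_mul,
        inv_mul_cancel₀ hμ]
    · have h7 := mul_os (M := M) hki (hH hk) x
      rw [inv_mul_cancel, Units.val_one, one_os, hk1] at h7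
      rw [mul_os hki hkh, mul_tt (hH hh) (hH hk), mul_os (hH hh) (hH hk), hh1, hk1, one_mul, hh2]
      linear_combination -h7
  have hwt := Pool.Agent.W160.MTZ.T_WT X M.deg M.deg_pos (Vec M H hH) hstab
  have hl0 : (p : Matrix m m ℂ) M.t M.t ≠ 0 := tt_ne hp
  have hσl : σ ((p : Matrix m m ℂ) M.t M.t) / (p : Matrix m m ℂ) M.t M.t ≠ 0 :=
    div_ne_zero (fun h => hl0 ((map_eq_zero σ).1 h)) hl0
  have htt : ((p⁻¹ * sg σ p : (Matrix m m ℂ)ˣ) : Matrix m m ℂ) M.t M.t =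
      σ ((p : Matrix m m ℂ) M.t M.t) / (p : Matrix m m ℂ) M.t M.t := by
    rw [mul_tt (Subgroup.inv_mem _ hp) (sg_mem M σ hp), tt_inv hp, sg_apply, div_eq_inv_mul]
  have hos : ∀ x, ((p⁻¹ * sg σ p : (Matrix m m ℂ)ˣ) : Matrix m m ℂ) M.o (M.s x) =
      σ ((p : Matrix m m ℂ) M.o (M.s x)) -
      (σ ((p : Matrix m m ℂ) M.t M.t) / (p : Matrix m m ℂ) M.t M.t) ^ M.deg x *
        (p : Matrix m m ℂ) M.o (M.s x) := by
    intro x
    have h := mul_os (M := M) hp (hH hs) x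
    rw [mul_inv_cancel_left, sg_apply, htt] at h
    rw [h]
    ring
  have h1 := hdg (Units.mk0 _ hσl)⁻¹
  have hv : (fun x => σ ((p : Matrix m m ℂ) M.o (M.s x)) -
      (σ ((p : Matrix m m ℂ) M.t M.t) / (p : Matrix m m ℂ) M.t M.t) ^ M.deg x *
        (p : Matrix m m ℂ) M.o (M.s x)) ∈ Vec M H hH := by
    refine ⟨_, H.mul_mem h1 hs, ?_, fun x => ?_⟩
    · rw [mul_tt (hH h1) (hH hs), dg_tt, htt, Units.val_inv_eq_inv_val,
        Units.val_mk0, inv_mul_cancel₀ hσl]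
    · rw [mul_os (hH h1) (hH hs), dg_os, mul_zero, zero_add, hos]
  rw [eq_top_iff]
  intro w _
  have h2 : w = ∑ x, fun y => if M.deg y = M.deg x then
      (w x / (σ ((p : Matrix m m ℂ) M.o (M.s x)) -
      (σ ((p : Matrix m m ℂ) M.t M.t) / (p : Matrix m m ℂ) M.t M.t) ^ M.deg x *
        (p : Matrix m m ℂ) M.o (M.s x))) * (σ ((p : Matrix m m ℂ) M.o (M.s y)) -
      (σ ((p : Matrix m m ℂ) M.t M.t) / (p : Matrix m m ℂ) M.t M.t) ^ M.deg y *
        (p : Matrix m m ℂ) M.o (M.s y)) else 0 := by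
    funext y
    rw [Finset.sum_apply, Finset.sum_eq_single y]
    · rw [if_pos rfl, div_mul_cancel₀ _ (hz y)]
    · intro x _ hxy
      rw [if_neg]
      intro h
      exact hxy (hinj h).symm
    · intro h
      exact absurd (Finset.mem_univ _) h
  rw [h2]
  exact AddSubgroup.sum_mem _ fun x _ => hwt _ hv (M.deg x) _

theorem conj_ne {M : Motive m X} {p : (Matrix m m ℂ)ˣ} (hdeg : ∀ x, Odd (M.deg x) ∧ 3 ≤ M.deg x)
    (hpi : (p : Matrix m m ℂ) M.t M.t = 2 * Real.pi * Complex.I)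
    (hzeta : ∀ x, (p : Matrix m m ℂ) M.o (M.s x) = riemannZeta (M.deg x)) (x : X) :
    cj ((p : Matrix m m ℂ) M.o (M.s x)) -
      (cj ((p : Matrix m m ℂ) M.t M.t) / (p : Matrix m m ℂ) M.t M.t) ^ M.deg x *
        (p : Matrix m m ℂ) M.o (M.s x) ≠ 0 := by
  have hpi0 : (p : Matrix m m ℂ) M.t M.t ≠ 0 := by
    rw [hpi]
    simp [Real.pi_ne_zero]
  have h1 : cj ((p : Matrix m m ℂ) M.t M.t) = -(p : Matrix m m ℂ) M.t M.t := by
    rw [hpi, cj_apply, map_mul, map_mul, Complex.conj_I, Complex.conj_ofReal, map_ofNat]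
    ring
  have h2 : cj ((p : Matrix m m ℂ) M.o (M.s x)) = (p : Matrix m m ℂ) M.o (M.s x) := by
    rw [hzeta, cj_apply]
    have h3 : (1 : ℕ) < M.deg x := by
      have := (hdeg x).2
      omega
    have h4 : riemannZeta (M.deg x) = ((∑' n : ℕ, 1 / (n : ℝ) ^ M.deg x : ℝ) : ℂ) := by
      rw [zeta_nat_eq_tsum_of_gt_one h3]
      push_cast
      rfl
    rw [h4, Complex.conj_ofReal]
  rw [h1, h2, neg_div, div_self hpi0, (hdeg x).1.neg_one_pow, hzeta]
  have h5 : riemannZeta (M.deg x) ≠ 0 := by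
    apply riemannZeta_ne_zero_of_one_le_re
    have := (hdeg x).2
    rw [Complex.natCast_re]
    exact_mod_cast (by omega : 1 ≤ M.deg x)
  intro h6
  apply h5
  linear_combination h6 / 2

theorem main_sv {M : Motive m X} {p : (Matrix m m ℂ)ˣ} (hp : p ∈ M.gp)
    (hdeg : ∀ x, Odd (M.deg x) ∧ 3 ≤ M.deg x) (hinj : Function.Injective M.deg)
    (hpi : (p : Matrix m m ℂ) M.t M.t = 2 * Real.pi * Complex.I)
    (hzeta : ∀ x, (p : Matrix m m ℂ) M.o (M.s x) = riemannZeta (M.deg x)) :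
    (DimensionConjecture M (p : Matrix m m ℂ) ↔ ∀ A B : Matrix m m ℂ,
      Satisfies M (p : Matrix m m ℂ) (p * A) → Satisfies M (p : Matrix m m ℂ) (p * B) →
        Satisfies M (p : Matrix m m ℂ) (p * (A * B))) ∧
    (DimensionConjecture M (p : Matrix m m ℂ) ↔ ∀ B : Matrix m m ℂ,
      Satisfies M (p : Matrix m m ℂ) B → Satisfies M (p : Matrix m m ℂ)
        (B * ((p⁻¹ : (Matrix m m ℂ)ˣ) * (p : Matrix m m ℂ).map (starRingEnd ℂ)))) := by
  have hs_val : ((p⁻¹ * sg cj p : (Matrix m m ℂ)ˣ) : Matrix m m ℂ) =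
      ((p⁻¹ : (Matrix m m ℂ)ˣ) : Matrix m m ℂ) * (p : Matrix m m ℂ).map (starRingEnd ℂ) := by
    rw [Units.val_mul]
    rfl
  have hind := Pool.Agent.W177.MTH.T_ZETA m X M (p : Matrix m m ℂ) hdeg hinj hpi hzeta
  have hA := (main_h Pool.Agent.W715.MTH.T_ALG Pool.Agent.W768.MTH.T_DIM
    Pool.Agent.W351.MTH.T_SPAN hp hind).2
  refine ⟨hA, fun hdim B hB => ?_, fun h => ?_⟩
  · have hmul := hA.1 hdim
    have h1 : B = (p : Matrix m m ℂ) * (((p⁻¹ : (Matrix m m ℂ)ˣ) : Matrix m m ℂ) * B) := by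
      rw [← mul_assoc, Units.mul_inv, one_mul]
    have h2 := hmul (((p⁻¹ : (Matrix m m ℂ)ˣ) : Matrix m m ℂ) * B)
      (((p⁻¹ : (Matrix m m ℂ)ˣ) : Matrix m m ℂ) * (p : Matrix m m ℂ).map (starRingEnd ℂ))
      (by rwa [← h1])
      (by
        rw [← mul_assoc, Units.mul_inv, one_mul]
        have h3 := (dim_iff Pool.Agent.W768.MTH.T_DIM hp).1 hdim _ (sg_mem M cj hp)
        exact h3)
    rwa [← mul_assoc, ← h1] at h2
  · rw [dim_iff Pool.Agent.W768.MTH.T_DIM hp]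
    have hH : Stab M (Sat M (p : Matrix m m ℂ)) ≤ M.gp := fun g hg => hg.1
    have hs : p⁻¹ * sg cj p ∈ Stab M (Sat M (p : Matrix m m ℂ)) := by
      refine ⟨Subgroup.mul_mem _ (Subgroup.inv_mem _ hp) (sg_mem M cj hp), fun B hB => ?_⟩
      rw [hs_val]
      exact h B hB
    have hle := gp_le_conj hH (dg_mem_Stab M _) hp cj hs hinj (conj_ne hdeg hpi hzeta)
    intro g hg
    have h1 := (hle (Subgroup.mul_mem _ (Subgroup.inv_mem _ hp) hg)).2 (p : Matrix m m ℂ)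
      (fun n c _ h0 => h0)
    rw [← Units.val_mul, mul_inv_cancel_left] at h1
    exact h1

end Pool.Agent.W516.MTH
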