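import Pool.Agent.W516.MTZ.Core
import Pool.Agent.W516.MTH.Stm

/-!
# Homogeneous torsors over `ℚ` through the comparison isomorphism
-/

set_option autoImplicit false
set_option linter.unusedSectionVars false

namespace Pool.Agent.W516.MTH

open Matrix Pool.Agent.W516.MTZ

variable {m X : Type} [Fintype m] [DecidableEq m] [Fintype X] [DecidableEq X]

/-- A proper additive subgroup which is stable under the torus is killed by a functional of some
degree. -/
theorem exists_gamma (d : X → ℕ) (hd : ∀ x, 0 < d x) (V : AddSubgroup (X → ℂ))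
    (hstab : ∀ μ : ℂ, μ ≠ 0 → ∀ v ∈ V, (fun x => μ ^ d x * v x) ∈ V) (hne : V ≠ ⊤) :
    ∃ (n : ℕ) (γ : X → ℂ), 0 < n ∧ γ ≠ 0 ∧ (∀ x, d x ≠ n → γ x = 0) ∧
      ∀ v ∈ V, ∑ x, γ x * v x = 0 := by
  have hwt := Pool.Agent.W160.MTZ.T_WT X d hd V hstab
  let W : ℕ → Submodule ℂ (X → ℂ) := fun n =>
    { carrier := {v | (fun x => if d x = n then v x else 0) ∈ V}
      zero_mem' := by
        have h : (fun x : X => if d x = n then (0 : X → ℂ) x else 0) = 0 := by
          funext x
          simp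
        rw [Set.mem_ofPred_eq, h]
        exact V.zero_mem
      add_mem' := by
        intro v w hv hw
        have h : (fun x : X => if d x = n then (v + w) x else 0) =
            (fun x => if d x = n then v x else 0) +
              fun x => if d x = n then w x else 0 := by
          funext x
          by_cases hx : d x = n <;> simp [hx]
        rw [Set.mem_ofPred_eq, h]
        exact V.add_mem hv hw
      smul_mem' := by
        intro c v hv
        have h := hwt _ hv n c
        have h' : (fun x : X => if d x = n then (c • v) x else 0) =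
            fun x => if d x = n then c * (if d x = n then v x else 0) else 0 := by
          funext x
          split_ifs <;> simp
        rw [Set.mem_ofPred_eq, h']
        exact h }
  have hWmem : ∀ n v, v ∈ W n ↔ (fun x => if d x = n then v x else 0) ∈ V :=
    fun n v => Iff.rfl
  have hW : ∃ n, W n ≠ ⊤ := by
    by_contra hcon
    push Not at hcon
    apply hne
    rw [eq_top_iff]
    intro v _
    have h1 : v = ∑ n ∈ Finset.univ.image d, fun x => if d x = n then v x else 0 := by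
      funext x
      rw [Finset.sum_apply, Finset.sum_ite_eq, if_pos]
      exact Finset.mem_image_of_mem _ (Finset.mem_univ x)
    rw [h1]
    refine AddSubgroup.sum_mem _ fun n _ => ?_
    rw [← hWmem, hcon n]
    trivial
  obtain ⟨n, hn⟩ := hW
  obtain ⟨φ, hφ0, hφ⟩ := Submodule.exists_le_ker_of_lt_top (W n) (lt_top_iff_ne_top.2 hn)
  set γ : X → ℂ := fun x => φ (Pi.single x 1) with hγ
  have hφγ : ∀ v, φ v = ∑ x, γ x * v x := by
    intro v
    rw [LinearMap.pi_apply_eq_sum_univ φ v]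
    refine Finset.sum_congr rfl fun x _ => ?_
    rw [smul_eq_mul, mul_comm, hγ]
    congr 2
    funext y
    rw [Pi.single_apply]
    simp only [eq_comm]
  have hγn : ∀ x, d x ≠ n → γ x = 0 := by
    intro x hx
    have h1 : (Pi.single x 1 : X → ℂ) ∈ W n := by
      rw [hWmem]
      have h2 : (fun y => if d y = n then (Pi.single x 1 : X → ℂ) y else 0) = 0 := by
        funext y
        by_cases hy : y = x
        · rw [hy, if_neg hx, Pi.zero_apply]
        · rw [Pi.single_eq_of_ne hy, ite_self, Pi.zero_apply]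
      rw [h2]
      exact V.zero_mem
    exact LinearMap.mem_ker.1 (hφ h1)
  have hγ0 : γ ≠ 0 := by
    intro h0
    apply hφ0
    refine LinearMap.ext fun v => ?_
    rw [hφγ, LinearMap.zero_apply]
    exact Finset.sum_eq_zero fun x _ => by rw [congrFun h0 x, Pi.zero_apply, zero_mul]
  refine ⟨n, γ, ?_, hγ0, hγn, fun v hv => ?_⟩
  · obtain ⟨x0, hx0⟩ := Function.ne_iff.1 hγ0
    have h1 : d x0 = n := by
      by_contra h
      exact hx0 (hγn x0 h)
    rw [← h1]
    exact hd x0
  · rw [← hφγ]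
    apply LinearMap.mem_ker.1
    apply hφ
    rw [hWmem]
    have := hwt v hv n 1
    simpa using this

section

variable {M : Motive m X} {H : Subgroup (Matrix m m ℂ)ˣ} (hH : H ≤ M.gp) {p : (Matrix m m ℂ)ˣ}
  (hp : p ∈ M.gp) (hσ : ∀ σ : ℂ ≃+* ℂ, p⁻¹ * sg σ p ∈ H) (hdg : ∀ μ : ℂˣ, dg M μ ∈ H)

theorem dg_tt (M : Motive m X) (μ : ℂˣ) : (dg M μ : Matrix m m ℂ) M.t M.t = μ := by
  rw [dg_val, diagonal_apply_eq, M.wt_t, pow_one]

theorem dg_os (M : Motive m X) (μ : ℂˣ) (x : X) : (dg M μ : Matrix m m ℂ) M.o (M.s x) = 0 := by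
  rw [dg_val, diagonal_apply_ne _ (o_ne_s M x)]

theorem img_top_h (hH : H ≤ M.gp) (hdg : ∀ μ : ℂˣ, dg M μ ∈ H) : Img M H hH = ⊤ := by
  rw [eq_top_iff]
  intro μ _
  exact ⟨dg M μ, hdg μ, dg_tt M μ⟩

include hp hH hσ hdg

theorem vec_top_h (hind : HIndependent M (p : Matrix m m ℂ)) : Vec M H hH = ⊤ := by
  by_contra hne
  have hstab : ∀ μ : ℂ, μ ≠ 0 → ∀ v ∈ Vec M H hH, (fun x => μ ^ M.deg x * v x) ∈ Vec M H hH := by
    rintro μ hμ v ⟨h, hh, hh1, hh2⟩
    have hk := hdg (Units.mk0 μ hμ)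
    have hk1 := dg_tt M (Units.mk0 μ hμ)
    have hk0 := fun x => dg_os M (Units.mk0 μ hμ) x
    generalize dg M (Units.mk0 μ hμ) = k at hk hk1 hk0
    rw [Units.val_mk0] at hk1
    have hkh : h * k ∈ M.gp := Subgroup.mul_mem _ (hH hh) (hH hk)
    have hki : k⁻¹ ∈ M.gp := Subgroup.inv_mem _ (hH hk)
    refine ⟨k⁻¹ * (h * k), H.mul_mem (H.inv_mem hk) (H.mul_mem hh hk), ?_, fun x => ?_⟩
    · rw [mul_tt hki hkh, mul_tt (hH hh) (hH hk), tt_inv (hH hk), hh1, hk1, one_mul,
        inv_mul_cancel₀ hμ]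
    · have h7 := mul_os (M := M) hki (hH hk) x
      rw [inv_mul_cancel, Units.val_one, one_os, hk1] at h7
      rw [mul_os hki hkh, mul_tt (hH hh) (hH hk), mul_os (hH hh) (hH hk), hh1, hk1, one_mul, hh2]
      linear_combination -h7
  obtain ⟨n, γ, hn0, hγ0, hγn, hker⟩ := exists_gamma M.deg M.deg_pos _ hstab hne
  set l : ℂ := (p : Matrix m m ℂ) M.t M.t with hl
  set z : X → ℂ := fun x => (p : Matrix m m ℂ) M.o (M.s x) with hz
  have hl0 : l ≠ 0 := tt_ne hp
  have hrel : ∀ σ : ℂ ≃+* ℂ, -((∑ x, γ x * z x) / l ^ n) * σ l ^ n +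
      ∑ x, γ x * σ (z x) = 0 := by
    intro σ
    have hσl : σ l / l ≠ 0 := div_ne_zero (fun h => hl0 ((map_eq_zero σ).1 h)) hl0
    have h1 := hdg (Units.mk0 (σ l / l) hσl)⁻¹
    have h2 : (dg M (Units.mk0 (σ l / l) hσl)⁻¹ * (p⁻¹ * sg σ p)) ∈ H := H.mul_mem h1 (hσ σ)
    have h3 : (fun x => σ (z x) - (σ l / l) ^ M.deg x * z x) ∈ Vec M H hH := by
      refine ⟨_, h2, ?_, fun x => ?_⟩
      · rw [mul_tt (hH h1) (hH (hσ σ)), dg_tt, hs_tt hH hp hσ, Units.val_inv_eq_inv_val,
          Units.val_mk0, inv_mul_cancel₀ hσl]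
      · rw [mul_os (hH h1) (hH (hσ σ)), dg_os, mul_zero, zero_add, hs_os hH hp hσ]
    have h4 := hker _ h3
    have h5 : ∑ x, γ x * (σ (z x) - (σ l / l) ^ M.deg x * z x) =
        ∑ x, γ x * σ (z x) - (σ l / l) ^ n * ∑ x, γ x * z x := by
      rw [Finset.mul_sum, ← Finset.sum_sub_distrib]
      refine Finset.sum_congr rfl fun x _ => ?_
      by_cases hx : M.deg x = n
      · rw [hx]
        ring
      · rw [hγn x hx]
        ring
    have h4' : ∑ x, γ x * (σ (z x) - (σ l / l) ^ M.deg x * z x) = 0 := h4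
    rw [h5] at h4'
    have h6 : (∑ x, γ x * z x) / l ^ n * σ l ^ n = (σ l / l) ^ n * ∑ x, γ x * z x := by
      rw [div_pow]
      field_simp
    linear_combination h4' - h6
  let E : Submodule ℂ (Option X → ℂ) :=
    { carrier := {v | (∀ x, M.deg x ≠ n → v (some x) = 0) ∧
        ∀ σ : ℂ ≃+* ℂ, v none * σ l ^ n + ∑ x, v (some x) * σ (z x) = 0}
      zero_mem' := by
        refine ⟨fun x _ => rfl, fun σ => ?_⟩
        simp
      add_mem' := by
        rintro v w ⟨hv1, hv2⟩ ⟨hw1, hw2⟩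
        refine ⟨fun x hx => ?_, fun σ => ?_⟩
        · rw [Pi.add_apply, hv1 x hx, hw1 x hx, add_zero]
        · have h4 := hv2 σ
          have h5 := hw2 σ
          simp only [Pi.add_apply, add_mul, Finset.sum_add_distrib]
          linear_combination h4 + h5
      smul_mem' := by
        rintro e v ⟨hv1, hv2⟩
        refine ⟨fun x hx => ?_, fun σ => ?_⟩
        · rw [Pi.smul_apply, hv1 x hx, smul_zero]
        · have h4 := hv2 σ
          simp only [Pi.smul_apply, smul_eq_mul, mul_assoc, ← Finset.mul_sum]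
          linear_combination e * h4 }
  have hEσ : ∀ (τ : ℂ ≃+* ℂ), ∀ v ∈ E, (fun i => τ (v i)) ∈ E := by
    rintro τ v ⟨hv1, hv2⟩
    refine ⟨fun x hx => ?_, fun σ => ?_⟩
    · change τ (v (some x)) = 0
      rw [hv1 x hx, map_zero]
    · have h4 := congrArg τ (hv2 (σ.trans τ.symm))
      rw [map_add, map_mul, map_pow, map_sum, map_zero] at h4
      simp only [map_mul, RingEquiv.trans_apply, RingEquiv.apply_symm_apply] at h4
      exact h4
  have hspan := Pool.Agent.W437.HD.span_rational E hEσ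
  have hEbot : E = ⊥ := by
    rw [hspan, Submodule.span_eq_bot]
    rintro w ⟨⟨hw1, hw2⟩, u, rfl⟩
    have h4 := hw2 (RingEquiv.refl ℂ)
    simp only [RingEquiv.refl_apply] at h4
    have h5 : (fun x => u (some x)) = 0 := by
      refine hind n _ (-u none) (fun x hx => ?_) ?_
      · by_contra h
        apply hx
        have h' : ((u (some x) : ℚ) : ℂ) = 0 := hw1 x h
        exact_mod_cast h'
      · push_cast
        linear_combination h4
    have h6 : ∀ x, u (some x) = 0 := fun x => congrFun h5 x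
    have h7 : (u none : ℂ) * l ^ n = 0 := by
      have h8 : ∑ x, (u (some x) : ℂ) * z x = 0 :=
        Finset.sum_eq_zero fun x _ => by rw [h6 x, Rat.cast_zero, zero_mul]
      rw [h8, add_zero] at h4
      exact h4
    have h8 : (u none : ℂ) = 0 := by
      rcases mul_eq_zero.1 h7 with h | h
      · exact h
      · exact absurd h (pow_ne_zero n hl0)
    funext i
    rcases i with _ | x
    · exact h8
    · simp [h6 x]
  let e0 : Option X → ℂ := fun i => Option.elim i (-((∑ x, γ x * z x) / l ^ n)) γ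
  have he0 : e0 ∈ E := ⟨fun x hx => hγn x hx, fun σ => hrel σ⟩
  rw [hEbot, Submodule.mem_bot] at he0
  exact hγ0 (funext fun x => congrFun he0 (some x))

theorem gp_le_h (hind : HIndependent M (p : Matrix m m ℂ)) : M.gp ≤ H :=
  gp_le hH (img_top_h hH hdg) (vec_top_h hH hp hσ hdg hind)

end

/-- If the periods are independent, every homogeneous torsor over `ℚ` through `p` contains the
torsor of motivic periods. -/
theorem noSub_h {M : Motive m X} {p : (Matrix m m ℂ)ˣ} (hp : p ∈ M.gp)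
    (hind : HIndependent M (p : Matrix m m ℂ)) {T : Set (Matrix m m ℂ)ˣ} (hT0 : IsTorsor T)
    (hhom : Homogeneous M T) (hpT : p ∈ T) : (M.gp : Set (Matrix m m ℂ)ˣ) ⊆ T := by
  obtain ⟨⟨P, hP⟩, G, t, hT⟩ := hT0
  have hpG : t⁻¹ * p ∈ G := by
    have := hpT
    rw [hT] at this
    exact this
  have hσT : ∀ σ : ℂ ≃+* ℂ, sg σ p ∈ T := by
    intro σ
    have := hpT
    rw [hP] at this ⊢
    intro f hf
    rw [aeval_sg, this f hf, map_zero]
  have hmem : ∀ g ∈ T, p⁻¹ * g ∈ G := by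
    intro g hg
    rw [hT] at hg
    have h2 := G.mul_mem (G.inv_mem hpG) hg
    have h3 : (t⁻¹ * p)⁻¹ * (t⁻¹ * g) = p⁻¹ * g := by group
    rwa [h3] at h2
  have hσ : ∀ σ : ℂ ≃+* ℂ, p⁻¹ * sg σ p ∈ G ⊓ M.gp := fun σ =>
    Subgroup.mem_inf.2 ⟨hmem _ (hσT σ), Subgroup.mul_mem _ (Subgroup.inv_mem _ hp) (sg_mem M σ hp)⟩
  have hdg : ∀ μ : ℂˣ, dg M μ ∈ G ⊓ M.gp := by
    intro μ
    refine Subgroup.mem_inf.2 ⟨?_, dg_mem M μ⟩
    have h1 := hmem _ (hhom p hpT (dg M μ) ⟨μ, μ.ne_zero, rfl⟩)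
    rwa [inv_mul_cancel_left] at h1
  have hle := gp_le_h (inf_le_right : G ⊓ M.gp ≤ M.gp) hp hσ hdg hind
  intro g hg
  have h1 : p⁻¹ * g ∈ G ⊓ M.gp := hle (Subgroup.mul_mem _ (Subgroup.inv_mem _ hp) hg)
  rw [hT]
  have h2 := G.mul_mem hpG (Subgroup.mem_inf.1 h1).1
  have h3 : (t⁻¹ * p) * (p⁻¹ * g) = t⁻¹ * g := by group
  rw [h3] at h2
  exact h2

end Pool.Agent.W516.MTH
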