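import Pool.Agent.W516.MTZ.Defs

/-!
# Homogeneous relations between the periods of mixed Tate motives
-/

set_option autoImplicit false

namespace Pool.Agent.W516.MTH

open Matrix Pool.Agent.W516.MTZ

variable {m X : Type} [Fintype m] [DecidableEq m] [Fintype X] [DecidableEq X]

/-- A set of matrices which is homogeneous for the weight: it is stable under the multiplication
on the right by the diagonal matrices `μ ^ wt`, `μ ≠ 0`. -/
def Homogeneous (M : Motive m X) (T : Set (Matrix m m ℂ)ˣ) : Prop :=
  ∀ g ∈ T, ∀ d : (Matrix m m ℂ)ˣ,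
    (∃ μ : ℂ, μ ≠ 0 ∧ (d : Matrix m m ℂ) = diagonal fun i => μ ^ M.wt i) → g * d ∈ T

/-- The vector space over `ℚ` which is spanned by the periods of weight `n`, the numbers `p i j`
with `wt j = n`. -/
noncomputable def periods (M : Motive m X) (p : Matrix m m ℂ) (n : ℕ) : Submodule ℚ ℂ :=
  Submodule.span ℚ {z | ∃ i j, M.wt j = n ∧ z = p i j}

/-- The vector space over `ℚ` of the motivic periods of weight `n`, which is spanned by the
functions `g ↦ g i j` with `wt j = n` on the torsor of motivic periods. -/
noncomputable def motivicPeriods (M : Motive m X) (n : ℕ) : Submodule ℚ (M.gp → ℂ) :=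
  Submodule.span ℚ
    {F | ∃ i j, M.wt j = n ∧ F = fun g : M.gp => ((g : (Matrix m m ℂ)ˣ) : Matrix m m ℂ) i j}

/-- The dimension conjecture for `M`: in each weight the dimension over `ℚ` of the space of the
periods is that of the space of the motivic periods. -/
def DimensionConjecture (M : Motive m X) (p : Matrix m m ℂ) : Prop :=
  ∀ n, Module.finrank ℚ (periods M p n) = Module.finrank ℚ (motivicPeriods M n)

/-- The matrix `B` satisfies all linear relations with rational coefficients between the periods
of weight `n`, for each `n`. -/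
def Satisfies (M : Motive m X) (p B : Matrix m m ℂ) : Prop :=
  ∀ (n : ℕ) (c : m → m → ℚ), (∀ i j, c i j ≠ 0 → M.wt j = n) →
    ∑ i, ∑ j, (c i j : ℂ) * p i j = 0 → ∑ i, ∑ j, (c i j : ℂ) * B i j = 0

/-- For each `n` the periods `p_(o, s x)` of the extensions of `ℚ(-n)` by `ℚ(0)`, `deg x = n`, are
linearly independent over `ℚ` modulo `ℚ λ ^ n`, where `λ = p_(t, t)` is the period of `ℚ(-1)`. -/
def HIndependent (M : Motive m X) (p : Matrix m m ℂ) : Prop :=
  ∀ (n : ℕ) (c : X → ℚ) (b : ℚ), (∀ x, c x ≠ 0 → M.deg x = n) →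
    ∑ x, (c x : ℂ) * p M.o (M.s x) = b * p M.t M.t ^ n → c = 0

end Pool.Agent.W516.MTH
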