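import Pool.Agent.W516.MTH.Core

/-!
# The dimension conjecture and the multiplicativity of the relations
-/

set_option autoImplicit false
set_option linter.unusedSectionVars false

namespace Pool.Agent.W516.MTH

open Matrix Pool.Agent.W516.MTZ

variable {m X : Type} [Fintype m] [DecidableEq m] [Fintype X] [DecidableEq X]

/-- The space of the matrices which satisfy all relations. -/
def Sat (M : Motive m X) (p : Matrix m m ℂ) : Submodule ℂ (Matrix m m ℂ) where
  carrier := {B | Satisfies M p B}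
  zero_mem' := by
    intro n c _ _
    simp
  add_mem' := by
    intro A B hA hB n c hc h
    have h1 := hA n c hc h
    have h2 := hB n c hc h
    simp only [Matrix.add_apply, mul_add, Finset.sum_add_distrib]
    rw [h1, h2, add_zero]
  smul_mem' := by
    intro e A hA n c hc h
    have h1 := hA n c hc h
    have h2 : ∀ i, ∑ j, (c i j : ℂ) * (e • A) i j = e * ∑ j, (c i j : ℂ) * A i j := by
      intro i
      rw [Finset.mul_sum]
      refine Finset.sum_congr rfl fun j _ => ?_
      rw [Matrix.smul_apply, smul_eq_mul]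
      ring
    simp only [h2]
    rw [← Finset.mul_sum, h1, mul_zero]

theorem mem_Sat {M : Motive m X} {p B : Matrix m m ℂ} : B ∈ Sat M p ↔ Satisfies M p B := Iff.rfl

theorem dim_iff (hDim : StDim) {M : Motive m X} {p : (Matrix m m ℂ)ˣ} (hp : p ∈ M.gp) :
    DimensionConjecture M (p : Matrix m m ℂ) ↔
      ∀ g ∈ M.gp, Satisfies M (p : Matrix m m ℂ) (g : Matrix m m ℂ) := by
  have key : ∀ n : ℕ,
      (Module.finrank ℚ (periods M (p : Matrix m m ℂ) n) =
        Module.finrank ℚ (motivicPeriods M n) ↔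
      ∀ c : m → m → ℚ, (∀ i j, c i j ≠ 0 → M.wt j = n) →
        ∑ i, ∑ j, (c i j : ℂ) * (p : Matrix m m ℂ) i j = 0 →
        ∀ g ∈ M.gp, ∑ i, ∑ j, (c i j : ℂ) * (g : Matrix m m ℂ) i j = 0) := by
    intro n
    have h1 := hDim (m × m) ℂ (M.gp → ℂ) (fun k => M.wt k.2 = n)
      (fun k => (p : Matrix m m ℂ) k.1 k.2)
      (fun k => fun g : M.gp => ((g : (Matrix m m ℂ)ˣ) : Matrix m m ℂ) k.1 k.2)
      (by
        intro c _ h
        have h2 := congrFun h (⟨p, hp⟩ : M.gp)
        rw [Finset.sum_apply] at h2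
        exact h2)
    have h2 : {z : ℂ | ∃ k : m × m, M.wt k.2 = n ∧ z = (p : Matrix m m ℂ) k.1 k.2} =
        {z | ∃ i j, M.wt j = n ∧ z = (p : Matrix m m ℂ) i j} := by
      ext z
      constructor
      · rintro ⟨⟨i, j⟩, h⟩
        exact ⟨i, j, h⟩
      · rintro ⟨i, j, h⟩
        exact ⟨⟨i, j⟩, h⟩
    have h3 : {F : M.gp → ℂ | ∃ k : m × m, M.wt k.2 = n ∧
          F = fun g : M.gp => ((g : (Matrix m m ℂ)ˣ) : Matrix m m ℂ) k.1 k.2} =
        {F | ∃ i j, M.wt j = n ∧
          F = fun g : M.gp => ((g : (Matrix m m ℂ)ˣ) : Matrix m m ℂ) i j} := by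
      ext z
      constructor
      · rintro ⟨⟨i, j⟩, h⟩
        exact ⟨i, j, h⟩
      · rintro ⟨i, j, h⟩
        exact ⟨⟨i, j⟩, h⟩
    rw [h2, h3] at h1
    rw [periods, motivicPeriods, h1]
    constructor
    · intro h c hc hc0 g hg
      have h4 := h (fun k => c k.1 k.2) (fun k hk => hc _ _ hk) (by
        rw [Fintype.sum_prod_type]
        simpa only [Rat.smul_def] using hc0)
      have h5 := congrFun h4 (⟨g, hg⟩ : M.gp)
      rw [Finset.sum_apply, Fintype.sum_prod_type] at h5
      simpa only [Pi.smul_apply, Rat.smul_def, Pi.zero_apply] using h5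
    · intro h c hc hc0
      rw [Fintype.sum_prod_type] at hc0
      have h4 := h (fun i j => c (i, j)) (fun i j hk => hc _ hk) (by
        simpa only [Rat.smul_def] using hc0)
      funext g
      have h5 := h4 g g.2
      rw [Finset.sum_apply, Fintype.sum_prod_type]
      simpa only [Pi.smul_apply, Rat.smul_def, Pi.zero_apply] using h5
  constructor
  · intro h g hg n c hc hc0
    exact (key n).1 (h n) c hc hc0 g hg
  · intro h n
    exact (key n).2 fun c hc hc0 g hg => h g hg n c hc hc0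

/-- The polynomials of the relations. -/
noncomputable def relPoly (c : m → m → ℚ) : MvPolynomial (m × m) ℚ :=
  ∑ i, ∑ j, MvPolynomial.C (c i j) * MvPolynomial.X (i, j)

theorem aeval_relPoly (c : m → m → ℚ) (A : Matrix m m ℂ) :
    MvPolynomial.aeval (crd A) (relPoly c) = ∑ i, ∑ j, (c i j : ℂ) * A i j := by
  rw [relPoly, map_sum]
  refine Finset.sum_congr rfl fun i _ => ?_
  rw [map_sum]
  refine Finset.sum_congr rfl fun j _ => ?_
  rw [map_mul, MvPolynomial.aeval_C, MvPolynomial.aeval_X]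
  rfl

theorem main_h (hAlg : StAlg) (hDim : StDim) (hSpan : StSpan) {M : Motive m X}
    {p : (Matrix m m ℂ)ˣ} (hp : p ∈ M.gp) (hind : HIndependent M (p : Matrix m m ℂ)) :
    (∀ T : Set (Matrix m m ℂ)ˣ, IsTorsor T → Homogeneous M T → p ∈ T →
      (M.gp : Set (Matrix m m ℂ)ˣ) ⊆ T) ∧
    (DimensionConjecture M (p : Matrix m m ℂ) ↔ ∀ A B : Matrix m m ℂ,
      Satisfies M (p : Matrix m m ℂ) (p * A) → Satisfies M (p : Matrix m m ℂ) (p * B) →
        Satisfies M (p : Matrix m m ℂ) (p * (A * B))) := by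
  refine ⟨fun T h1 h2 h3 => noSub_h hp hind h1 h2 h3, ?_⟩
  rw [dim_iff hDim hp]
  constructor
  · intro h A B hA hB
    set G : Set (Matrix m m ℂ) := {A | ∃ g ∈ M.gp, A = ((g : (Matrix m m ℂ)ˣ) : Matrix m m ℂ)}
      with hG
    have hS : ∀ B, Satisfies M (p : Matrix m m ℂ) B → B ∈ Submodule.span ℂ G := by
      intro B hB
      refine hSpan m M.wt G ?_ ?_ B ?_
      · rintro σ _ ⟨g, hg, rfl⟩
        exact ⟨sg σ g, sg_mem M σ hg, rfl⟩
      · rintro μ hμ _ ⟨g, hg, rfl⟩
        exact ⟨g * dg M (Units.mk0 μ hμ), Subgroup.mul_mem _ hg (dg_mem M _), rfl⟩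
      · intro n c hc hc0
        exact hB n c hc (hc0 _ ⟨p, hp, rfl⟩)
    have hS' : ∀ B ∈ Submodule.span ℂ G, Satisfies M (p : Matrix m m ℂ) B := by
      intro B hB
      have h1 : Submodule.span ℂ G ≤ Sat M (p : Matrix m m ℂ) := by
        rw [Submodule.span_le]
        rintro _ ⟨g, hg, rfl⟩
        exact h g hg
      exact h1 hB
    have hmul : ∀ A ∈ Submodule.span ℂ G, ∀ B ∈ Submodule.span ℂ G,
        A * B ∈ Submodule.span ℂ G := by
      intro A hA B hB
      have h1 := Submodule.mul_mem_mul hA hB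
      rw [Submodule.span_mul_span] at h1
      refine Submodule.span_mono ?_ h1
      rintro _ ⟨_, ⟨g, hg, rfl⟩, _, ⟨k, hk, rfl⟩, rfl⟩
      exact ⟨g * k, Subgroup.mul_mem _ hg hk, rfl⟩
    have hpi : ((p⁻¹ : (Matrix m m ℂ)ˣ) : Matrix m m ℂ) ∈ Submodule.span ℂ G :=
      Submodule.subset_span ⟨p⁻¹, Subgroup.inv_mem _ hp, rfl⟩
    have hp' : (p : Matrix m m ℂ) ∈ Submodule.span ℂ G := Submodule.subset_span ⟨p, hp, rfl⟩
    have hA' : A ∈ Submodule.span ℂ G := by
      have h1 := hmul _ hpi _ (hS _ hA)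
      rwa [← mul_assoc, Units.inv_mul, one_mul] at h1
    have hB' : B ∈ Submodule.span ℂ G := by
      have h1 := hmul _ hpi _ (hS _ hB)
      rwa [← mul_assoc, Units.inv_mul, one_mul] at h1
    exact hS' _ (hmul _ hp' _ (hmul _ hA' _ hB'))
  · intro h
    let L : Submodule ℂ (Matrix m m ℂ) :=
      { carrier := {A | Satisfies M (p : Matrix m m ℂ) (p * A)}
        zero_mem' := by
          have h1 := (Sat M (p : Matrix m m ℂ)).zero_mem
          rw [mem_Sat] at h1
          rw [Set.mem_ofPred_eq, mul_zero]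
          exact h1
        add_mem' := by
          intro A B hA hB
          rw [Set.mem_ofPred_eq, mul_add]
          exact (Sat M (p : Matrix m m ℂ)).add_mem hA hB
        smul_mem' := by
          intro e A hA
          rw [Set.mem_ofPred_eq, Matrix.mul_smul]
          exact (Sat M (p : Matrix m m ℂ)).smul_mem e hA }
    have hLmem : ∀ A, A ∈ L ↔ Satisfies M (p : Matrix m m ℂ) (p * A) := fun A => Iff.rfl
    have h1L : (1 : Matrix m m ℂ) ∈ L := by
      rw [hLmem, mul_one]
      intro n c _ h0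
      exact h0
    have hmulL : ∀ A ∈ L, ∀ B ∈ L, A * B ∈ L := fun A hA B hB => h A B hA hB
    let G : Subgroup (Matrix m m ℂ)ˣ :=
      { carrier := {u | (u : Matrix m m ℂ) ∈ L}
        one_mem' := by
          rw [Set.mem_ofPred_eq, Units.val_one]
          exact h1L
        mul_mem' := by
          intro a b ha hb
          rw [Set.mem_ofPred_eq, Units.val_mul]
          exact hmulL _ ha _ hb
        inv_mem' := by
          intro a ha
          exact hAlg m L h1L hmulL a ha }
    have hGmem : ∀ u : (Matrix m m ℂ)ˣ, u ∈ G ↔ (u : Matrix m m ℂ) ∈ L := fun u => Iff.rfl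
    let T : Set (Matrix m m ℂ)ˣ := {g | Satisfies M (p : Matrix m m ℂ) (g : Matrix m m ℂ)}
    have hT : IsTorsor T := by
      refine ⟨⟨{f | ∃ (n : ℕ) (c : m → m → ℚ), (∀ i j, c i j ≠ 0 → M.wt j = n) ∧
        ∑ i, ∑ j, (c i j : ℂ) * (p : Matrix m m ℂ) i j = 0 ∧ f = relPoly c}, ?_⟩, G, p, ?_⟩
      · ext g
        constructor
        · rintro hg f ⟨n, c, hc, hc0, rfl⟩
          rw [aeval_relPoly]
          exact hg n c hc hc0
        · intro hg n c hc hc0
          have h2 := hg (relPoly c) ⟨n, c, hc, hc0, rfl⟩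
          rwa [aeval_relPoly] at h2
      · ext g
        change Satisfies M (p : Matrix m m ℂ) (g : Matrix m m ℂ) ↔ p⁻¹ * g ∈ G
        rw [hGmem, hLmem, ← Units.val_mul, mul_inv_cancel_left]
    have hhom : Homogeneous M T := by
      rintro g hg d ⟨μ, hμ, hd⟩ n c hc hc0
      have h2 := hg n c hc hc0
      have h3 : ∀ i j, (c i j : ℂ) * ((g * d : (Matrix m m ℂ)ˣ) : Matrix m m ℂ) i j =
          μ ^ n * ((c i j : ℂ) * (g : Matrix m m ℂ) i j) := by
        intro i j
        rw [Units.val_mul, hd, mul_diagonal]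
        by_cases h4 : c i j = 0
        · rw [h4]
          simp
        · rw [hc i j h4]
          ring
      simp only [h3, ← Finset.mul_sum]
      rw [h2, mul_zero]
    have hpT : p ∈ T := by
      intro n c _ h0
      exact h0
    intro g hg
    exact noSub_h hp hind hT hhom hpT hg

end Pool.Agent.W516.MTH
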